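import Pool.Agent.P8H30.BP.Sp

set_option autoImplicit false

/-!
# Definitions for `RealHyperbolicPeriodGroups`
-/

open Module Matrix Pool.Agent.Y102 Pool.Agent.W516.DR Pool.Agent.H204R3.GP

noncomputable section

namespace Pool.Agent.P8H30.BPD

variable {g : ℕ} (A : AbVar g)

/-! ### The place -/

/-- `P` is an endomorphism of `A` (up to isogeny), in terms of its action on `H_1(A, ℚ)`: it respects
the de Rham structure. (By the theorem of Bost, which is proved in `Pool.Agent.Y102.AbVar.hodge_end`,
these are the elements of `End(A) ⊗ ℚ`.) -/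
def IsEndo (P : Module.End ℚ A.H1) : Prop := IsDeRhamBettiEnd QBar A.dR P

/-- `x` is an eigenvector of `z` for the eigenvalue `i a` (or zero); here `H_1(A, ℝ) = ℂ ^ g` is the
tangent space, and `A.ext z` is the real linear extension of `z`. -/
def Eigen (z : Module.End ℚ A.H1) (a : ℝ) (x : Fin g → ℂ) : Prop :=
  A.ext z x = ((a : ℂ) * Complex.I) • x

/-- **A unitary place** with signature `(1, k)` for some `k`. -/
structure UnitaryPlace (z : Module.End ℚ A.H1) (a : ℝ) : Prop where
  /-- `z` is in the centre of the algebra of the endomorphisms -/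
  endo : IsEndo A z
  central : ∀ P, IsEndo A P → z * P = P * z
  /-- `z` is skew-symmetric for the polarization -/
  skew : ∀ u v, A.om (z u) v + A.om u (z v) = 0
  /-- the elements of the centre are polynomials in `z` on the image of `z` -/
  generates : ∀ P, IsEndo A P → (∀ Q, IsEndo A Q → P * Q = Q * P) →
    ∃ q : Polynomial ℚ, P * z = Polynomial.aeval z q * z
  ne : a ≠ 0
  /-- `i a` is an eigenvalue of `z` on the tangent space -/
  eigen : ∃ x, x ≠ 0 ∧ Eigen A z a x
  /-- the eigenspace is a simple module over the endomorphism algebra -/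
  simple : ∀ x y, x ≠ 0 → Eigen A z a x → Eigen A z a y →
    y ∈ Submodule.span ℂ {w | ∃ P, IsEndo A P ∧ w = A.ext P x}

/-! ### The Lie algebra -/

/-- The multilinear forms in `2m` variables in the rational homology. -/
abbrev Form (m : ℕ) : Type := MultilinearMap ℚ (fun _ : Fin m × Fin 2 => A.H1) ℚ

/-- `φ` is a de Rham-Betti class in `H^1(A) ^ {⊗ 2m} (m)`. -/
def IsDRB {m : ℕ} (φ : Form A m) : Prop :=
  IsDeRhamBettiForm QBar A.dR (2 * Real.pi * Complex.I) m φ

/-- `φ` is a Hodge class in `H^1(A) ^ {⊗ 2m} (m)`. -/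
def IsHodge {m : ℕ} (φ : Form A m) : Prop := IsHodgeTensor (A.per : A.H1 →+ (Fin g → ℂ)) φ

/-- The endomorphism `X` annihilates the form `φ` (as a derivation). -/
def Annihilates {m : ℕ} (X : Module.End ℚ A.H1) (φ : Form A m) : Prop :=
  ∀ v, ∑ k, φ (Function.update v k (X (v k))) = 0

/-- `X` is in the Lie algebra `𝔤`: it annihilates all classes that are Hodge classes and
de Rham-Betti classes. -/
def InLie (X : Module.End ℚ A.H1) : Prop :=
  ∀ (m : ℕ) (φ : Form A m), IsHodge A φ → IsDRB A φ → Annihilates A X φ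

/-! ### Frames -/

section frames

variable {k : ℕ}

/-- The real span of the vectors `x i` and `z (x i)`. -/
def hull (z : Module.End ℚ A.H1) (x : Fin (k + 1) → (Fin g → ℂ)) : Submodule ℝ (Fin g → ℂ) :=
  Submodule.span ℝ (Set.range x ∪ Set.range fun i => A.ext z (x i))

/-- `W` is simple under `𝔤` and `z`. -/
def IsSimpleUnder (z : Module.End ℚ A.H1) (W : Submodule ℝ (Fin g → ℂ)) : Prop :=
  ∀ U : Submodule ℝ (Fin g → ℂ), U ≤ W → (∀ X, InLie A X → ∀ u ∈ U, A.ext X u ∈ U) →
    (∀ u ∈ U, A.ext z u ∈ U) → U = ⊥ ∨ U = W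

/-- `W` generates the sum of the eigenspaces for `± i a` over the endomorphism algebra: an endomorphism
which commutes with the endomorphisms of `A` and is zero on `W` is zero on the eigenspaces. -/
def Generates (z : Module.End ℚ A.H1) (a : ℝ) (W : Submodule ℝ (Fin g → ℂ)) : Prop :=
  ∀ y : Module.End ℝ (Fin g → ℂ), (∀ P, IsEndo A P → y * A.ext P = A.ext P * y) →
    (∀ u ∈ W, y u = 0) → ∀ u, A.ext z (A.ext z u) = -(a ^ 2) • u → y u = 0

/-- **A real frame** of signature `(1, k)` at the place of `a`. -/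
structure RealFrame (z : Module.End ℚ A.H1) (a : ℝ) (x : Fin (k + 1) → (Fin g → ℂ)) : Prop where
  /-- the vectors are in the sum of the eigenspaces of `z` for `± i a` -/
  square : ∀ i, A.ext z (A.ext z (x i)) = -(a ^ 2) • x i
  /-- the Riemann form `E` vanishes on the real span of the frame -/
  real : ∀ i j, A.E (x i) (x j) = 0
  /-- the frame is orthonormal with signature `(1, k)` for the form `E(x, z y) / a` -/
  orthonormal : ∀ i j, A.E (x i) (A.ext z (x j)) = if i = j then (if i = 0 then a else -a) else 0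
  /-- `W` is stable under `𝔤` -/
  stable : ∀ X, InLie A X → ∀ i, A.ext X (x i) ∈ hull A z x
  /-- `W` is simple under `𝔤` and `z` -/
  simple : IsSimpleUnder A z (hull A z x)
  /-- `W` generates the sum of the eigenspaces over the endomorphism algebra -/
  generates : Generates A z a (hull A z x)
  /-- if all endomorphisms are polynomials in `z` then `W` is the sum of the eigenspaces -/
  full : (∀ P, IsEndo A P → ∃ q : Polynomial ℚ, P = Polynomial.aeval z q) →
    ∀ u, A.ext z (A.ext z u) = -(a ^ 2) • u → u ∈ hull A z x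

/-- The infinitesimal rotation in the plane of `x i`, `x j`, applied to `x l`. -/
def rotation (x : Fin (k + 1) → (Fin g → ℂ)) (i j l : Fin (k + 1)) : Fin g → ℂ :=
  (if l = j then (if j = 0 then x i else -x i) else 0) -
    (if l = i then (if i = 0 then x j else -x j) else 0)

end frames

/-! ### Motives -/

variable {s n : ℕ} (r : Fin s → ℕ) (w : Fin s → ℤ)

/-- The Betti realization of the sum of the motives `h^1(A) ^ {⊗ r i} (w i)`: families of multilinear
forms in `r i` variables in the rational homology. -/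
abbrev Tensors : Type := ∀ i : Fin s, MultilinearMap ℚ (fun _ : Fin (r i) => A.H1) ℚ

variable {A r}

/-- `M` is the matrix of the action of the endomorphism `X` of the rational homology of `A` (as a
derivation) on the space of tensors with the basis `B`. -/
def IsLieMatrix (B : Fin n → Tensors A r) (X : Module.End ℚ A.H1)
    (M : Matrix (Fin n) (Fin n) ℚ) : Prop :=
  ∀ a i v, ∑ k, B a i (Function.update v k (X (v k))) = ∑ b, M b a * B b i v

/-- The subspace with the basis `B` is the Betti realization of a direct factor `M` of the sum of the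
motives `h^1(A) ^ {⊗ r i} (w i)`, and `P` is the matrix of the periods of `M` for the basis `B` and for
some basis of the de Rham realization of `M` over `ℚ̄`. -/
structure IsMotive (B : Fin n → Tensors A r) (P : Matrix (Fin n) (Fin n) ℂ) : Prop where
  /-- `B` is a basis of a subspace -/
  basis : LinearIndependent ℚ B
  /-- the subspace is stable under `𝔤` -/
  lie : ∀ X, InLie A X → ∃ M : Matrix (Fin n) (Fin n) ℚ, IsLieMatrix B X M
  /-- the subspace is stable under the weights -/
  weight : ∃ M : Matrix (Fin n) (Fin n) ℚ, ∀ a i v,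
    ((r i : ℚ) - 2 * w i) * B a i v = ∑ b, M b a * B b i v
  /-- the de Rham realization has a basis of elements with algebraic coefficients in terms of the
  tensor products of the elements of the basis of `H^1_dR(A / ℚ̄)` -/
  deRham : ∃ c : Fin n → ∀ i : Fin s, (Fin (r i) → Fin g ⊕ Fin g) → ℂ,
    (∀ a i J, IsAlgebraic ℚ (c a i J)) ∧ ∀ a i (v : Fin (r i) → A.H1),
      ∑ J, c a i J * ∏ k, A.dR (J k) (v k) =
        (2 * Real.pi * Complex.I) ^ (w i) * ∑ b, P b a * (B b i v : ℂ)
  /-- the matrix of the periods is invertible -/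
  det : P.det ≠ 0

/-! ### The Mumford-Tate domain -/

/-- `N` is the matrix of the action on `M` of the multiplication with `i` on `H_1(A, ℝ) = ℂ ^ g` (as a
derivation): the generator of the Lie algebra of the circle in the Hodge structure of `M`. -/
def IsComplexStructure (B : Fin n → Tensors A r) (N : Matrix (Fin n) (Fin n) ℝ) : Prop :=
  ∀ a i (j : Fin (r i) → Fin (2 * g)),
    ∑ k, ∑ l : Fin (2 * g), A.lam.repr (Complex.I • A.lam (j k)) l *
        (B a i (Function.update (fun p => Pi.single (j p) 1) k (Pi.single l 1)) : ℝ) =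
      ∑ b, N b a * (B b i (fun p => Pi.single (j p) 1) : ℝ)

variable (A) in
/-- The derived algebra `[𝔤, 𝔤]`. -/
def derivedLie : Submodule ℚ (Module.End ℚ A.H1) :=
  Submodule.span ℚ {Z | ∃ X, InLie A X ∧ ∃ Y, InLie A Y ∧ Z = X * Y - Y * X}

/-- The elements of `[𝔤, 𝔤] ⊗ ℝ`, as pairs of their action on `H_1(A, ℝ) = ℂ ^ g` and of their matrix on
the motive. -/
def actions (B : Fin n → Tensors A r) :
    Submodule ℝ (Module.End ℝ (Fin g → ℂ) × Matrix (Fin n) (Fin n) ℝ) :=
  Submodule.span ℝ {p | ∃ X ∈ derivedLie A, ∃ M : Matrix (Fin n) (Fin n) ℚ, IsLieMatrix B X M ∧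
    p = (A.ext X, M.map fun q => (q : ℝ))}

/-- The part of the Hodge group which acts trivially on the eigenspaces of `z` for `± i a` acts
trivially on the Mumford-Tate domain of `M`: if an element of `[𝔤, 𝔤] ⊗ ℝ`, which acts on
`H_1(A, ℝ) = ℂ ^ g` by `p.1` and on `M` by `p.2`, acts trivially on these eigenspaces, then `p.2`
commutes with the complex structure `N` of `M`. -/
def DomainOf (z : Module.End ℚ A.H1) (a : ℝ) (B : Fin n → Tensors A r)
    (N : Matrix (Fin n) (Fin n) ℝ) : Prop :=
  ∀ p ∈ actions B, (∀ x, Eigen A z a x ∨ Eigen A z (-a) x → p.1 x = 0) → p.2 * N = N * p.2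

/-- The Lie algebra of the Hodge group of `M`: the smallest rational Lie algebra whose real span
contains the complex structure `N`. -/
def hodgeLie (N : Matrix (Fin n) (Fin n) ℝ) : Submodule ℚ (Matrix (Fin n) (Fin n) ℚ) :=
  sInf {L | (∀ x ∈ L, ∀ y ∈ L, x * y - y * x ∈ L) ∧
    N ∈ Submodule.span ℝ {M | ∃ x ∈ L, M = x.map fun q => (q : ℝ)}}

/-- The derived algebra. -/
def derived (L : Submodule ℚ (Matrix (Fin n) (Fin n) ℚ)) :
    Submodule ℚ (Matrix (Fin n) (Fin n) ℚ) :=
  Submodule.span ℚ {z | ∃ x ∈ L, ∃ y ∈ L, z = x * y - y * x}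

/-- The centre of the Lie algebra acts trivially: an element of `𝔤` which acts on `M` like a central
element acts trivially. -/
def CentreActsTrivially (B : Fin n → Tensors A r) : Prop :=
  ∀ X, InLie A X → (∀ Y, InLie A Y → IsLieMatrix B (X * Y - Y * X) 0) → IsLieMatrix B X 0

/-! ### Algebraic groups, torsors and the Mumford-Tate group -/

/-- A subgroup of `GL_R(ℂ)` defined by polynomials with rational coefficients. -/
def IsAlgebraicSubgroup {R : Type} [Fintype R] [DecidableEq R] (G : Subgroup (GL R ℂ)) : Prop :=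
  ∃ I : Set (MvPolynomial (R × R) ℚ), ∀ x : GL R ℂ, x ∈ G ↔
    ∀ p ∈ I, MvPolynomial.aeval (fun b : R × R => (x : Matrix R R ℂ) b.1 b.2) p = 0

/-- The torsor `G · T⁻¹` of `G`: the matrices `F` such that `F T` is an element of `G`. It is
defined over `ℚ̄` if `T` is a matrix with algebraic entries. -/
def torsor (G : Subgroup (GL (Fin n) ℂ)) (T : Matrix (Fin n) (Fin n) ℂ) :
    Set (Matrix (Fin n) (Fin n) ℂ) :=
  {F | ∃ x ∈ G, (x : Matrix (Fin n) (Fin n) ℂ) = F * T}

/-- The matrix `M` is in the Lie algebra of `G(ℂ)`: all `exp (t M)` are in `G`. -/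
def InLieAlgebra (G : Subgroup (GL (Fin n) ℂ)) (M : Matrix (Fin n) (Fin n) ℂ) : Prop :=
  ∀ t : ℂ, ∃ x ∈ G, (x : Matrix (Fin n) (Fin n) ℂ) = NormedSpace.exp (t • M)

variable (A) in
/-- The Hodge structure of `H^1(A)`: the complex number `z` acts on `H_1(A, ℝ) = ℂ ^ g` by
multiplication, and on `H^1(A, ℝ)` by the transposed map, here in the basis of `H^1(A, ℚ)` which is
dual to the basis of the lattice. -/
def hodge (z : ℂ) : Matrix (Fin (2 * g)) (Fin (2 * g)) ℂ :=
  Matrix.of fun i j => ((A.lam.repr (z • A.lam i) j : ℝ) : ℂ)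

/-- `R` is the matrix of the action of the complex number `z` on `M`, in the Hodge structure given by
those of `H^1(A)` and of the Tate motives (`z` acts on `ℚ(1)` by `(z z̄)⁻¹`). -/
def IsHodgeMatrix (B : Fin n → Tensors A r) (z : ℂ) (R : Matrix (Fin n) (Fin n) ℂ) : Prop :=
  ∀ a i (j : Fin (r i) → Fin (2 * g)),
    ∑ j' : Fin (r i) → Fin (2 * g), (∏ k, hodge A z (j k) (j' k)) *
        (B a i (fun k => Pi.single (j' k) 1) : ℂ) =
      (z * (starRingEnd ℂ) z) ^ (w i) * ∑ b, R b a * (B b i (fun k => Pi.single (j k) 1) : ℂ)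

/-- The Mumford-Tate group of `M`: the smallest algebraic group over `ℚ` which contains the image of
the Deligne torus. -/
def mumfordTate (B : Fin n → Tensors A r) : Subgroup (GL (Fin n) ℂ) :=
  sInf {G | IsAlgebraicSubgroup G ∧ ∀ z : ℂ, z ≠ 0 → ∃ x ∈ G,
    IsHodgeMatrix w B z (x : Matrix (Fin n) (Fin n) ℂ)}

/-! ### The properties of the group -/

/-- The Lie algebra of `G(ℂ)` contains the images of elements of `[𝔤, 𝔤] ⊗ ℝ` which act on `W` as the
infinitesimal rotations in the planes of `x i`, `x j`. -/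
def ContainsRotations {k : ℕ} (B : Fin n → Tensors A r) (G : Subgroup (GL (Fin n) ℂ))
    (z : Module.End ℚ A.H1) (x : Fin (k + 1) → (Fin g → ℂ)) : Prop :=
  ∀ i j, ∃ p ∈ actions B, (∀ l, p.1 (x l) = rotation x i j l ∧
    p.1 (A.ext z (x l)) = A.ext z (rotation x i j l)) ∧
    InLieAlgebra G (p.2.map fun c => (c : ℂ))

/-- The derived algebra of the Lie algebra of `G` is real: if `X`, `Y` are in `𝔤` and act on `M` by
elements of the Lie algebra of `G`, then `[X, Y]` maps the real span of the frame to itself. -/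
def IsReal {k : ℕ} (B : Fin n → Tensors A r) (G : Subgroup (GL (Fin n) ℂ))
    (x : Fin (k + 1) → (Fin g → ℂ)) : Prop :=
  ∀ X Y, InLie A X → InLie A Y → ∀ M M' : Matrix (Fin n) (Fin n) ℚ,
    IsLieMatrix B X M → IsLieMatrix B Y M' → InLieAlgebra G (M.map fun q => (q : ℂ)) →
    InLieAlgebra G (M'.map fun q => (q : ℂ)) →
    ∀ l, A.ext (X * Y - Y * X) (x l) ∈ Submodule.span ℝ (Set.range x)

/-- The Lie algebra of `G(ℂ)` is everything at the place of `a`: every element of `[𝔤, 𝔤] ⊗ ℝ` agrees on
the sum of the eigenspaces of `z` for `± i a` with an element which acts on `M` by a matrix in the Lie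
algebra of `G(ℂ)`. -/
def IsEverything (B : Fin n → Tensors A r) (G : Subgroup (GL (Fin n) ℂ))
    (z : Module.End ℚ A.H1) (a : ℝ) : Prop :=
  ∀ p ∈ actions B, ∃ p' ∈ actions B, (∀ u, A.ext z (A.ext z u) = -(a ^ 2) • u → p.1 u = p'.1 u) ∧
    InLieAlgebra G (p'.2.map fun c => (c : ℂ))

/-- The group contains the derived group of the Mumford-Tate group (and everything if the centre acts
trivially), if the Mumford-Tate domain is that of the place of `a`. -/
def ContainsDerived (B : Fin n → Tensors A r) (G : Subgroup (GL (Fin n) ℂ))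
    (z : Module.End ℚ A.H1) (a : ℝ) : Prop :=
  ∀ N : Matrix (Fin n) (Fin n) ℝ, IsComplexStructure B N → DomainOf z a B N →
    (∀ Z ∈ derived (hodgeLie N), InLieAlgebra G (Z.map fun q => (q : ℂ))) ∧
    (CentreActsTrivially B → mumfordTate w B ≤ G)

end Pool.Agent.P8H30.BPD
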