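import Pool.Agent.P8H30.BP.Cls

set_option autoImplicit false

/-!
# Definitions for `SignatureOne`
-/

open Module Matrix Pool.Agent.Y102 Pool.Agent.W516.DR Pool.Agent.H204R3.GP

noncomputable section

namespace Pool.Agent.P8H30.BPD2

variable {g : ℕ} (A : AbVar g)

/-- `P` is an endomorphism of `A` (up to isogeny), in terms of its action on `H_1(A, ℚ)`: it respects
the de Rham structure. (By the theorem of Bost, which is proved in `Pool.Agent.Y102.AbVar.hodge_end`,
these are the elements of `End(A) ⊗ ℚ`.) -/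
def IsEndo (P : Module.End ℚ A.H1) : Prop := IsDeRhamBettiEnd QBar A.dR P

/-- `x` is an eigenvector of `z` for the eigenvalue `i a` (or zero); here `H_1(A, ℝ) = ℂ ^ g` is the
tangent space, and `A.ext z` is the real linear extension of `z`. -/
def Eigen (z : Module.End ℚ A.H1) (a : ℝ) (x : Fin g → ℂ) : Prop :=
  A.ext z x = ((a : ℂ) * Complex.I) • x

/-- **Signature `(1, g - 1)`.** The algebra `End(A) ⊗ ℚ` is the imaginary quadratic field
`ℚ(z)`, `z ^ 2 = - d`, and the eigenspace of `z` for `i √d` on the tangent space of `A` has the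
dimension one. -/
structure SignatureOne (z : Module.End ℚ A.H1) (d : ℚ) : Prop where
  pos : 0 < d
  /-- `z ^ 2 = - d` -/
  square : ∀ v, z (z v) = -(d • v)
  /-- `z` is an endomorphism of `A` -/
  endo : IsEndo A z
  /-- all endomorphisms are in `ℚ + ℚ z` -/
  all : ∀ P, IsEndo A P → ∃ p q : ℚ, ∀ v, P v = p • v + q • z v
  /-- the eigenspace is not zero -/
  eigen : ∃ x, x ≠ 0 ∧ Eigen A z (Real.sqrt d) x
  /-- the eigenspace has the dimension one -/
  one : ∀ x y, x ≠ 0 → Eigen A z (Real.sqrt d) x → Eigen A z (Real.sqrt d) y → ∃ c : ℂ, y = c • x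

/-- The multilinear forms in `2m` variables in the rational homology: the elements of
`H^1(A, ℚ) ^ {⊗ 2m}`. -/
abbrev Form (m : ℕ) : Type := MultilinearMap ℚ (fun _ : Fin m × Fin 2 => A.H1) ℚ

/-- `φ` is a de Rham-Betti class in `H^1(A) ^ {⊗ 2m} (m)`: the form `(2 π i) ^ m φ` is a linear
combination with algebraic coefficients of products of the elements of `H^1_dR(A / ℚ̄)`. -/
def IsDRB {m : ℕ} (φ : Form A m) : Prop :=
  IsDeRhamBettiForm QBar A.dR (2 * Real.pi * Complex.I) m φ

/-- The form is alternating: an element of `H^{2m}(A, ℚ)`. -/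
def IsAlternating {m : ℕ} (φ : Form A m) : Prop :=
  ∀ v : Fin m × Fin 2 → A.H1, ∀ i j, i ≠ j → v i = v j → φ v = 0

/-- The `m`-th power of the class of the polarization (up to a factor): the alternating form
`∑ σ, sign σ ∏ i, E(v_{σ(i, 0)}, v_{σ(i, 1)})`, for `E` the Riemann form. -/
def polarizationPower (m : ℕ) (v : Fin m × Fin 2 → A.H1) : ℚ :=
  ∑ σ : Equiv.Perm (Fin m × Fin 2), ((Equiv.Perm.sign σ : ℤ) : ℚ) *
    ∏ i : Fin m, A.om (v (σ (i, 0))) (v (σ (i, 1)))

end Pool.Agent.P8H30.BPD2
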