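import Pool.Agent.P8H30.BP.Sp
import Pool.Agent.P8H30.BPD.Defs

set_option autoImplicit false

/-!
# The proof of `RealHyperbolicPeriodGroups`
-/

open Module Matrix Pool.Agent.Y102 Pool.Agent.W516.DR Pool.Agent.H204R3.GP

noncomputable section

namespace Pool.Agent.P8H30.BPD

variable {g : ℕ} {A : AbVar g}

theorem UnitaryPlace.toHP {z : Module.End ℚ A.H1} {a : ℝ} (h : UnitaryPlace A z a) :
    N208.BT.HP A z a :=
  { mem := A.mem_EA.2 h.endo
    cen := fun P hP => h.central P (A.mem_EA.1 hP)
    skew := h.skew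
    gen := fun P hP hc => h.generates P (A.mem_EA.1 hP) fun Q hQ => hc Q (A.mem_EA.2 hQ)
    ne := h.ne
    ex := h.eigen
    simple := fun x y hx h1 h2 => by
      refine (Submodule.span_mono ?_) (h.simple x y hx h1 h2)
      rintro w ⟨P, hP, rfl⟩
      exact ⟨P, A.mem_EA.2 hP, rfl⟩ }

theorem rotation_eq {k : ℕ} (x : Fin (k + 1) → (Fin g → ℂ)) (i j l : Fin (k + 1)) :
    P8H30.BP.rotv x i j l = rotation x i j l := by
  unfold P8H30.BP.rotv rotation P8H30.BP.sr
  congr 1
  · split_ifs <;> simp
  · split_ifs <;> simp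

/-- **Theorem.** Let `z` be a central skew-symmetric endomorphism of the abelian variety `A` with a
unitary place `a` of signature `(1, k)`. Let `M` be a motive in the tensor category generated by
`h^1(A)` and the Tate motives, with the matrix `P` of periods, and let `G` be an algebraic group over
`ℚ` with a torsor over `ℚ̄` which contains `P`. Then there is a real frame such that `G` contains the
infinitesimal rotations of the frame; and either the Lie algebra of `G` is everything at this place,
and `G` contains the derived group of the Mumford-Tate group of `M`, if the domain of `M` is that of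
the place, or the derived algebra of the Lie algebra of `G` is real for the frame, so that it acts as
the Lie algebra `so(1, k)`. -/
theorem main {g : ℕ} (A : AbVar g) (z : Module.End ℚ A.H1) (a : ℝ) (hA : UnitaryPlace A z a) :
    ∃ k : ℕ, ∀ {s n : ℕ} (r : Fin s → ℕ) (w : Fin s → ℤ) (B : Fin n → Tensors A r)
      (P : Matrix (Fin n) (Fin n) ℂ), IsMotive w B P →
      ∀ G : Subgroup (GL (Fin n) ℂ), IsAlgebraicSubgroup G → ∀ T : Matrix (Fin n) (Fin n) ℂ,
      (∀ i j, IsAlgebraic ℚ (T i j)) → P ∈ torsor G T →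
      ∃ x : Fin (k + 1) → (Fin g → ℂ), RealFrame A z a x ∧ ContainsRotations B G z x ∧
        (IsEverything B G z a ∧ ContainsDerived w B G z a ∨ IsReal B G x) := by
  have hp := hA.toHP
  obtain ⟨W, e0, hWS⟩ := N773.BTWA2.main g A z a hp
  obtain ⟨k, φ, wd⟩ := N402.BTWB2.main g A z a hp W e0 hWS
  refine ⟨k, fun {s n} r w B P hM G hG T hT hP => ?_⟩
  obtain ⟨hM', Wt, hW⟩ : N208.AM.Mot w B P ∧ ∃ Wt, N208.AM.WRel w B Wt := by
    have hwt : ∃ M, N208.AM.WRel w B M := by
      obtain ⟨M, h⟩ := hM.weight
      refine ⟨M, fun a i => MultilinearMap.ext fun v => ?_⟩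
      rw [_root_.smul_apply, _root_.sum_apply, smul_eq_mul, h a i v]
      rfl
    refine ⟨⟨hM.basis, fun X hX => ?_, hwt, hM.det, hM.deRham⟩, hwt⟩
    obtain ⟨M, h⟩ := hM.lie X hX
    refine ⟨M, fun a i => MultilinearMap.ext fun v => ?_⟩
    rw [N208.AM.dact_apply, _root_.sum_apply, h a i v]
    rfl
  have hrelL : ∀ X M, N208.AM.Rel B X M ↔ IsLieMatrix B X M := by
    intro X M
    constructor
    · intro h a i v
      have h1 := congrArg (fun φ : MultilinearMap ℚ (fun _ : Fin (r i) => A.H1) ℚ => φ v) (h a i)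
      simp only [N208.AM.dact_apply, _root_.sum_apply, _root_.smul_apply, smul_eq_mul] at h1
      exact h1
    · intro h a i
      refine MultilinearMap.ext fun v => ?_
      rw [N208.AM.dact_apply, _root_.sum_apply, h a i v]
      rfl
  have hb : ∀ j : Fin (2 * g), A.bas j = Pi.single j 1 := fun j => by
    unfold AbVar.bas
    rw [Pi.basisFun_apply]
  have hrel : ∀ z R, N208.AM.HRel w B z R → IsHodgeMatrix w B z R := by
    intro z R h a i j
    have h1 := h a i j
    simp only [hb] at h1
    exact h1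
  have hNC : CentreActsTrivially B → N208.AM.NoCentre B := fun hc X hX h =>
    (hrelL X 0).2 (hc X hX fun Y hY => (hrelL _ 0).1 (h Y hY))
  have hact : N208.BT.pR B (Y102.der A.NA) = actions B := by
    refine le_antisymm (Submodule.span_mono ?_) (Submodule.span_mono ?_)
    · rintro _ ⟨X, hX, M, hM, rfl⟩
      exact ⟨X, hX, M, (hrelL _ _).1 hM, rfl⟩
    · rintro _ ⟨X, hX, M, hM, rfl⟩
      exact ⟨X, hX, M, (hrelL _ _).2 hM, rfl⟩
  -- the group
  have hdet : T.det ≠ 0 := by
    obtain ⟨x, -, hxT⟩ := hP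
    intro h0
    have h1 : (x : Matrix (Fin n) (Fin n) ℂ).det = 0 := by
      rw [hxT, Matrix.det_mul, h0, mul_zero]
    exact (Matrix.GeneralLinearGroup.det x).ne_zero h1
  obtain ⟨T', h1, h2⟩ := Pool.Agent.R917.alg_inv hT hdet
  obtain ⟨x, hx, hxT⟩ := hP
  have hH : N208.AM.PtM P {M | ∃ x ∈ G, (x : Matrix (Fin n) (Fin n) ℂ) = M} :=
    ⟨Pool.Agent.R917.algGrp_of hG, T, T', h1, h2, x, hx, hxT⟩
  obtain ⟨x, hx, hrot, hd⟩ := P8H30.BP.main_grp hp wd hM' hW hH
  have hV : ∀ u, A.ext z (A.ext z u) = -(a ^ 2) • u → u ∈ N208.BT.V0 A z a := by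
    intro u hu
    rw [N773.BTWA2.mem_V0, hu, neg_smul, neg_add_cancel]
  refine ⟨x, ?_, fun i j => ?_, ?_⟩
  · exact
      { square := hx.sq
        real := hx.real
        orthonormal := hx.herm
        stable := hx.stab
        simple := hx.simple
        generates := fun y h1 h2 u hu => hx.gen y (fun P hP => h1 P (A.mem_EA.1 hP)) h2 u
          (hV u hu)
        full := fun h1 u hu => P8H30.BP.hull_top hx hp (fun P hP => h1 P (A.mem_EA.1 hP))
          (hV u hu) }
  · obtain ⟨p, hp, h1, h2⟩ := hrot i j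
    rw [hact] at hp
    refine ⟨p, hp, fun l => ?_, h2⟩
    rw [← rotation_eq]
    exact h1 l
  · rcases hd with hd | hd
    · refine Or.inl ⟨fun p hp' => ?_, fun N hN hD => ?_⟩
      · rw [← hact] at hp' ⊢
        obtain ⟨p', h1, h2, h3⟩ := P8H30.BP.lift_grp hM' hW hH hd hp'
        exact ⟨p', h1, fun u hu => h2 u (hV u hu), h3⟩
      -- the complex structure
      have hNR : N208.AM.RelR B AbVar.JJ N := by
        intro a i
        refine Basis.ext_multilinear (fun _ => A.lam) fun j => ?_
        have h1 := hN a i j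
        rw [N208.AM.dact_apply, _root_.sum_apply]
        have h2 : (fun p => A.lam (j p)) = fun p => A.per (Pi.single (j p) 1) := by
          funext p
          rw [← hb, A.per_bas]
        have h3 : ∀ b, (N b a • A.Phi (B b i)) (fun p => A.lam (j p)) =
            N b a * (B b i (fun p => Pi.single (j p) 1) : ℝ) := fun b => by
          rw [_root_.smul_apply, smul_eq_mul, h2, A.Phi_per]
        rw [Finset.sum_congr rfl fun b _ => h3 b, ← h1]
        refine Finset.sum_congr rfl fun k _ => ?_
        rw [AbVar.JJ_apply, ← A.lam.sum_repr (Complex.I • A.lam (j k)),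
          MultilinearMap.map_update_sum]
        simp only [A.lam.sum_repr]
        refine Finset.sum_congr rfl fun l _ => ?_
        rw [MultilinearMap.map_update_smul, smul_eq_mul]
        congr 1
        have h4 : A.lam l = A.per (Pi.single l 1) := by rw [← hb, A.per_bas]
        rw [h2, h4, N208.AM.update_per, A.Phi_per]
      have hα : N208.BT.DomU (N208.BT.V0 A z a) B N := by
        intro p hp' h0
        rw [hact] at hp'
        refine hD p hp' fun x hx => h0 x ?_
        rcases hx with hx | hx
        · exact N208.BT.eig_mem_V0 hp.mem rfl hx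
        · exact N208.BT.eig_mem_V0 hp.mem (by ring) hx
      refine ⟨fun Z hZ t => ?_, fun hA => ?_⟩
      · obtain ⟨L, hL1, hL2, hL3⟩ := P8H30.BP.main_derL hM' hW hH hd hNR hα
        have h3 : hodgeLie N ≤ L := sInf_le ⟨hL1, hL2⟩
        have h4 : derived (hodgeLie N) ≤
            N208.AM.LQ {M | ∃ x ∈ G, (x : Matrix (Fin n) (Fin n) ℂ) = M} := by
          unfold derived
          rw [Submodule.span_le]
          rintro _ ⟨x, hx, y, hy, rfl⟩
          exact hL3 x (h3 hx) y (h3 hy)
        exact Pool.Agent.R917.exp_mem hH.grp fun d => (h4 hZ d).smul t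
      · have hc : N208.AM.NoCentre B := hNC hA
        refine sInf_le ⟨hG, fun z hz => ?_⟩
        obtain ⟨⟨x, hx, hx'⟩, h4⟩ := P8H30.BP.main_BL hM' hW hH hc hd hNR hα hz
        refine ⟨x, hx, ?_⟩
        rw [hx']
        exact hrel _ _ h4
    · refine Or.inr fun X Y hX hY M M' hM hM' h1 h2 l => ?_
      exact hd _ (P8H30.BP.br_mem_dq ‹N208.AM.Mot w B P› hH hX hY ((hrelL _ _).2 hM)
        ((hrelL _ _).2 hM') h1 h2) l

end Pool.Agent.P8H30.BPD
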