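import Pool.Agent.P8H30.BPD.Defs2

set_option autoImplicit false
set_option linter.unusedSectionVars false
set_option linter.unusedVariables false

/-!
# Proof of `SignatureOne`
-/

open Module Matrix Pool.Agent.Y102 Pool.Agent.W516.DR Pool.Agent.H204R3.GP Pool.Agent.N208.BT

noncomputable section

namespace Pool.Agent.P8H30.BPD2

variable {g : ℕ} {A : AbVar g} {z : Module.End ℚ A.H1} {d : ℚ}

theorem ext_one' : A.ext (1 : Module.End ℚ A.H1) = 1 := A.ext_per fun w => by
  rw [AbVar.ext_apply]
  rfl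

theorem H1_ne (h : SignatureOne A z d) : ∃ v : A.H1, v ≠ 0 := by
  by_contra hc
  push Not at hc
  obtain ⟨x, hx, -⟩ := h.eigen
  have h1 : (LinearMap.id : (Fin g → ℂ) →ₗ[ℝ] (Fin g → ℂ)) = 0 := A.ext_per fun w => by
    rw [hc w, map_zero, map_zero, LinearMap.zero_apply]
  exact hx (by
    have h2 := congrArg (fun F : (Fin g → ℂ) →ₗ[ℝ] (Fin g → ℂ) => F x) h1
    exact h2)

/-- `z` is not a scalar. -/
theorem not_scalar (h : SignatureOne A z d) {a b : ℚ} (hab : ∀ v, a • v = b • z v) : a = 0 ∧ b = 0 := by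
  obtain ⟨v, hv⟩ := H1_ne h
  have h1 : b = 0 := by
    by_contra hb
    have h2 : a • (a • v) = b • z (b • z v) := by
      rw [hab v, hab]
    rw [map_smul, h.square, smul_smul, smul_smul, smul_neg, smul_smul, ← neg_smul,
      ← sub_eq_zero, ← sub_smul] at h2
    have h3 := (smul_eq_zero.1 h2).resolve_right hv
    have h4 := h.pos
    have h5 : 0 < b * b := mul_self_pos.2 hb
    nlinarith [mul_self_nonneg a, mul_pos h5 h4]
  subst h1
  refine ⟨?_, rfl⟩
  have h2 := hab v
  rw [zero_smul] at h2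
  exact (smul_eq_zero.1 h2).resolve_right hv

/-- the real extension of the adjoint -/
theorem ext_adj {N N' : Module.End ℚ A.H1} (h : ∀ u v, A.om (N u) v = A.om u (N' v)) (u v) :
    A.E (A.ext N u) v = A.E u (A.ext N' v) := by
  have h2 : A.E.comp (A.ext N) = (A.E.flip.comp (A.ext N')).flip := by
    refine A.ext_per fun u => A.ext_per fun v => ?_
    change A.E (A.ext N (A.per u)) (A.per v) = A.E (A.per u) (A.ext N' (A.per v))
    rw [AbVar.ext_apply, AbVar.ext_apply, ← AbVar.om_coe, ← AbVar.om_coe, h]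
  exact congrArg (fun F : (Fin g → ℂ) →ₗ[ℝ] (Fin g → ℂ) →ₗ[ℝ] ℝ => F u v) h2

/-- **The endomorphism `z` is skew-symmetric.** -/
theorem skew (h : SignatureOne A z d) : ∀ u v, A.om (z u) v + A.om u (z v) = 0 := by
  obtain ⟨z', hz', hadj⟩ := A.endAlg.adj z (A.mem_EA.2 h.endo)
  obtain ⟨p, q, hpq⟩ := h.all z' (A.mem_EA.1 hz')
  have h1 : ∀ v, (p * (1 + q)) • v = (1 - q * q) • z v := by
    intro v
    rw [← sub_eq_zero]
    apply A.om_nondeg
    intro u
    have e1 : A.om (z v) u = A.om v (z' u) := hadj v u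
    have e2 : A.om (z' v) u = p * A.om v u + q * A.om (z v) u := by
      rw [hpq, map_add, map_smul, map_smul, LinearMap.add_apply, LinearMap.smul_apply,
        LinearMap.smul_apply, smul_eq_mul, smul_eq_mul]
    have e3 : A.om v (z' u) = p * A.om v u + q * A.om v (z u) := by
      rw [hpq, map_add, map_smul, map_smul, smul_eq_mul, smul_eq_mul]
    have e4 : A.om v (z u) = A.om (z' v) u := by
      rw [A.om_anti v, hadj, A.om_anti u, neg_neg]
    rw [map_sub, map_smul, map_smul, LinearMap.sub_apply, LinearMap.smul_apply,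
      LinearMap.smul_apply, smul_eq_mul, smul_eq_mul]
    linear_combination -e1 - e3 - q * e4 - q * e2
  obtain ⟨h2, h3⟩ := not_scalar h h1
  have h4 : q = 1 ∨ q = -1 := by
    have : (q - 1) * (q + 1) = 0 := by linear_combination -h3
    rcases mul_eq_zero.1 this with h | h
    · exact Or.inl (by linear_combination h)
    · exact Or.inr (by linear_combination h)
  rcases h4 with rfl | rfl
  · exfalso
    have hp : p = 0 := by linarith
    obtain ⟨x, hx, hex⟩ := h.eigen
    have h5 := ext_adj hadj x x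
    have h6 : z' = z := LinearMap.ext fun v => by rw [hpq, hp, zero_smul, zero_add, one_smul]
    rw [h6] at h5
    have h7 : A.E x (A.ext z x) = 0 := by
      have := A.E_anti x (A.ext z x)
      linarith
    rw [hex, mul_smul, Complex.coe_smul, map_smul, smul_eq_mul] at h7
    have h8 : 0 < Real.sqrt d := Real.sqrt_pos.2 (by exact_mod_cast h.pos)
    have h9 := A.E_pos hx
    exact (mul_pos h8 h9).ne' h7
  · have hz2 : ∀ v, z' (z' v) = -(d • v) := by
      intro v
      rw [eq_neg_iff_add_eq_zero]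
      apply A.om_nondeg
      intro u
      have hanti : ∀ a b, A.om (z' a) b = A.om a (z b) := fun a b => by
        rw [A.om_anti, A.om_anti a, ← hadj]
      rw [map_add, map_smul, LinearMap.add_apply, LinearMap.smul_apply, hanti, hanti, h.square,
        map_neg, map_smul, neg_add_cancel]
    have h5 : ∀ v, (p * p) • v = (2 * p) • z v := by
      intro v
      have h6 := hz2 v
      rw [hpq (z' v), hpq v, map_add, map_smul, map_smul, h.square] at h6
      have h7 : p • (p • v + (-1 : ℚ) • z v) + (-1 : ℚ) • (p • z v + (-1 : ℚ) • -(d • v)) =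
        (p * p) • v - (2 * p) • z v - d • v := by module
      rw [h7] at h6
      have h8 : (p * p) • v - (2 * p) • z v = 0 := by
        rw [sub_eq_iff_eq_add.1 h6, neg_add_cancel]
      exact sub_eq_zero.1 h8
    obtain ⟨h6, -⟩ := not_scalar h h5
    have hp : p = 0 := mul_self_eq_zero.1 h6
    intro u v
    rw [hadj, hpq, hp, zero_smul, zero_add, neg_smul, one_smul, map_neg, neg_add_cancel]

theorem poly (h : SignatureOne A z d) {P : Module.End ℚ A.H1} (hP : P ∈ A.EA) :
    ∃ q : Polynomial ℚ, P = Polynomial.aeval z q := by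
  obtain ⟨p, q, hpq⟩ := h.all P (A.mem_EA.1 hP)
  refine ⟨Polynomial.C p + Polynomial.C q * Polynomial.X, LinearMap.ext fun v => ?_⟩
  rw [map_add, map_mul, Polynomial.aeval_C, Polynomial.aeval_C, Polynomial.aeval_X, hpq]
  rfl

theorem hp_of (h : SignatureOne A z d) : HP A z (Real.sqrt d) where
  mem := A.mem_EA.2 h.endo
  cen P hP := by
    obtain ⟨p, q, hpq⟩ := h.all P (A.mem_EA.1 hP)
    refine LinearMap.ext fun v => ?_
    rw [Module.End.mul_apply, Module.End.mul_apply, hpq, hpq, map_add, map_smul, map_smul]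
  skew := skew h
  gen P hP _ := by
    obtain ⟨q, hq⟩ := poly h hP
    exact ⟨q, by rw [hq]⟩
  ne := (Real.sqrt_pos.2 (by exact_mod_cast h.pos)).ne'
  ex := h.eigen
  simple x y hx h1 h2 := by
    obtain ⟨c, rfl⟩ := h.one x y hx h1 h2
    refine Submodule.smul_mem _ _ (Submodule.subset_span ⟨1, A.EA_one, ?_⟩)
    rw [ext_one']
    rfl

theorem main (h : SignatureOne A z d) {m : ℕ} (hm : 2 * m ≠ g) {φ : Form A m} (hφ : IsDRB A φ)
    (halt : IsAlternating A φ) : ∃ q : ℚ, ∀ v, φ v = q * polarizationPower A m v := by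
  have hV : ∀ u, u ∈ V0 A z (Real.sqrt d) := by
    intro u
    rw [N773.BTWA2.mem_V0]
    have h1 : A.ext z ∘ₗ A.ext z = -(((Real.sqrt d) ^ 2) • LinearMap.id) := A.ext_per fun w => by
      rw [LinearMap.comp_apply, AbVar.ext_apply, AbVar.ext_apply, h.square, map_neg,
        N208.AD.per_smul, LinearMap.neg_apply, LinearMap.smul_apply, LinearMap.id_apply,
        Real.sq_sqrt (by exact_mod_cast h.pos.le)]
    have h2 := congrArg (fun F : (Fin g → ℂ) →ₗ[ℝ] (Fin g → ℂ) => F u) h1
    have h3 : A.ext z (A.ext z u) = -(((Real.sqrt d) ^ 2) • u) := h2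
    rw [h3, neg_add_cancel]
  obtain ⟨q, hq⟩ := P8H30.BP.main_cls (hp_of h) (fun P hP => poly h hP) hV hm hφ halt
  refine ⟨q, fun v => ?_⟩
  rw [hq]
  rfl

end Pool.Agent.P8H30.BPD2
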